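import Pool.Agent.Lib.P704aa6.Main

/-!
# Invariant functions which are continuous on a pointed perfect set are constant on a cone
-/

namespace Pool.Agent.Results.MP_704aa6_lc.ContinuousCase

open Encodable

/-! ## Definitions used in the statement -/

/-- The characteristic function of the real `x`, as a partial function on the natural numbers. -/
def chi (x : ℕ → Bool) : ℕ →. ℕ := fun n => Part.some (x n).toNat

/-- Turing reducibility `x ≤_T y` of reals. -/
def TLe (x y : ℕ → Bool) : Prop := TuringReducible (chi x) (chi y)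

/-- Many-one equivalence `a ≡_m b` of reals. -/
def MEquiv (a b : ℕ → Bool) : Prop :=
  (∃ ρ : ℕ → ℕ, Computable ρ ∧ ∀ n, a n = b (ρ n)) ∧
    ∃ ρ : ℕ → ℕ, Computable ρ ∧ ∀ n, b n = a (ρ n)

/-- The initial segment of length `k` of `x`. -/
def seg (x : ℕ → Bool) (k : ℕ) : List Bool := (List.range k).map x

/-- The value of the `e`-th functional with the finite oracle `σ` at `n`. -/
def ev (e : ℕ) (σ : List Bool) (n : ℕ) : Part ℕ :=
  (Denumerable.ofNat Nat.Partrec.Code e).eval (encode (σ, n))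

/-- `Φ_e` is monotone and `Φ_e^x = y`. -/
structure Computes (e : ℕ) (x y : ℕ → Bool) : Prop where
  mono : ∀ (σ τ : List Bool) (n v : ℕ), σ <+: τ → v ∈ ev e σ n → v ∈ ev e τ n
  total : ∀ n, ∃ k, (y n).toNat ∈ ev e (seg x k) n

/-- `x ≡_T y` via `(i, j)`. -/
def TVia (i j : ℕ) (x y : ℕ → Bool) : Prop := Computes i x y ∧ Computes j y x

/-- The `k`-th partial computable function. -/
def phi (k : ℕ) : ℕ →. ℕ := (Denumerable.ofNat Nat.Partrec.Code k).eval

/-- `a ≡_m b` via `(k, l)`. -/
def MVia (k l : ℕ) (a b : ℕ → Bool) : Prop :=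
  (∃ ρ : ℕ → ℕ, (∀ n, ρ n ∈ phi k n) ∧ ∀ n, a n = b (ρ n)) ∧
    ∃ ρ : ℕ → ℕ, (∀ n, ρ n ∈ phi l n) ∧ ∀ n, b n = a (ρ n)

/-- `g` is uniformly `(≡_T, ≡_m)`-invariant. -/
def UniformlyInvariant (g : (ℕ → Bool) → (ℕ → Bool)) : Prop :=
  ∃ u : ℕ × ℕ → ℕ × ℕ, ∀ (i j : ℕ) (x y : ℕ → Bool), TVia i j x y →
    MVia (u (i, j)).1 (u (i, j)).2 (g x) (g y)

/-- A perfect tree: a set of binary strings which contains the empty string and is closed under
initial segments, and in which every string has a splitting extension. -/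
structure PerfectTree (T : Set (List Bool)) : Prop where
  nil : [] ∈ T
  closed : ∀ σ τ, τ ∈ T → σ <+: τ → σ ∈ T
  split : ∀ σ ∈ T, ∃ τ, σ <+: τ ∧ τ ++ [false] ∈ T ∧ τ ++ [true] ∈ T

/-- The set `[T]` of infinite branches of `T`. -/
def branches (T : Set (List Bool)) : Set (ℕ → Bool) := {x | ∀ n, seg x n ∈ T}

open Classical in
/-- The tree `T`, coded as a real. -/
noncomputable def treeReal (T : Set (List Bool)) : ℕ → Bool :=
  fun n => decide (∃ σ ∈ T, encode σ = n)

/-- The perfect tree `T` is pointed: it is recursive in each of its branches. -/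
def PointedPerfect (T : Set (List Bool)) : Prop :=
  PerfectTree T ∧ ∀ x ∈ branches T, TLe (treeReal T) x

/-! ## The functionals compute exactly the Turing reductions -/

open Pool.Agent.Lib.P704aa6 in
/-- The functionals of the statement define Turing reducibility. -/
theorem tLe_iff_computes (x y : ℕ → Bool) : TLe y x ↔ ∃ e, Computes e x y := by
  constructor
  · intro h
    obtain ⟨F, hF⟩ := Pool.Agent.Lib.P2f7dfd.exists_rep (A := x) (RecursiveIn.iff_nat.1 h)
    obtain ⟨e, he⟩ := hF.exists_code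
    refine ⟨e, ⟨fun σ τ n v h1 h2 => ?_, fun n => ?_⟩⟩
    · unfold ev at h2 ⊢
      rw [he] at h2 ⊢
      exact hF.mono σ τ n v h1 h2
    · obtain ⟨k, hk⟩ := (hF.mem n (y n).toNat).1 (by simp [chi])
      refine ⟨k, ?_⟩
      unfold ev
      rw [he]
      exact hk
  · rintro ⟨e, he⟩
    have h0 : RC {Pool.Agent.Lib.P2f7dfd.real x} fun k : ℕ => seg x k := by
      have h1 : RC {Pool.Agent.Lib.P2f7dfd.real x} fun _ : Unit => ([] : List Bool) := RC.const []
      have h2 : RC {Pool.Agent.Lib.P2f7dfd.real x} fun p : Unit × ℕ × List Bool =>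
          p.2.2 ++ [x p.2.1] :=
        RC.ofComp₂ (f := fun (σ : List Bool) (b : Bool) => σ ++ [b]) Computable.list_concat
          (RC.ofPrim (Primrec.snd.comp Primrec.snd))
          ((rc_self x).comp (RC.ofPrim (Primrec.fst.comp Primrec.snd)))
      refine ((h1.nat_rec h2).comp ((RC.const ()).pair RC.id)).congr fun n => ?_
      induction n with
      | zero => rfl
      | succ n ih =>
        simp only at ih ⊢
        rw [ih]
        simp [seg, List.range_succ]
    set c := Denumerable.ofNat Nat.Partrec.Code e with hc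
    let q : ℕ × ℕ → Option ℕ := fun p => Nat.Partrec.Code.evaln p.2.unpair.2 c
      (encode (seg x p.2.unpair.1, p.1))
    have h1 : RC {Pool.Agent.Lib.P2f7dfd.real x} q := by
      have h2 : RC {Pool.Agent.Lib.P2f7dfd.real x} fun p : ℕ × ℕ =>
          encode (seg x p.2.unpair.1, p.1) :=
        (RC.ofPrim Primrec.encode).comp ((h0.comp (RC.ofPrim (Primrec.fst.comp
          (Primrec.unpair.comp Primrec.snd)))).pair (RC.ofPrim Primrec.fst))
      have h3 : RC {Pool.Agent.Lib.P2f7dfd.real x} fun p : ℕ × ℕ =>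
          ((p.2.unpair.2, c), encode (seg x p.2.unpair.1, p.1)) :=
        ((RC.ofPrim (Primrec.snd.comp (Primrec.unpair.comp Primrec.snd))).pair
          (RC.const c)).pair h2
      exact (RC.ofPrim Nat.Partrec.Code.primrec_evaln).comp h3
    have h2 : RC {Pool.Agent.Lib.P2f7dfd.real x} fun p => (q p).isSome :=
      (RC.ofPrim Primrec.option_isSome).comp h1
    have h3 : ∀ n, ∃ m, (q (n, m)).isSome = true := by
      intro n
      obtain ⟨k, hk⟩ := he.total n
      obtain ⟨s, hs⟩ := Nat.Partrec.Code.evaln_complete.1 hk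
      refine ⟨Nat.pair k s, ?_⟩
      have : q (n, Nat.pair k s) = some (y n).toNat := by
        simpa [q] using hs
      rw [this]
      rfl
    obtain ⟨g, hg, hg'⟩ := RC.exists_find h2 h3
    have h4 : RC {Pool.Agent.Lib.P2f7dfd.real x} fun n => decide ((q (n, g n)).getD 0 = 1) := by
      have h5 : RC {Pool.Agent.Lib.P2f7dfd.real x} fun n => (q (n, g n)).getD 0 :=
        (RC.ofPrim (Primrec.option_getD.comp Primrec.id (Primrec.const 0))).comp
          (h1.comp (RC.id.pair hg))
      exact (RC.ofPrim (PrimrecPred.decide (Primrec.eq.comp Primrec.id (Primrec.const 1)))).comp h5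
    refine (tRed_iff (a := y) (b := x)).2 (h4.congr fun n => ?_)
    have h5 := (hg' n).1
    obtain ⟨v, hv⟩ := Option.isSome_iff_exists.1 h5
    have h6 : v ∈ ev e (seg x (g n).unpair.1) n :=
      Nat.Partrec.Code.evaln_sound (k := (g n).unpair.2) (by simpa [q] using hv)
    obtain ⟨k, hk⟩ := he.total n
    have hseg : ∀ i j, i ≤ j → seg x i <+: seg x j := by
      intro i j hij
      rw [List.prefix_iff_eq_take]
      simp [seg, ← List.map_take, List.take_range, hij]
    have h7 : v = (y n).toNat := by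
      refine Part.mem_unique (he.mono _ _ _ _ (hseg _ (max (g n).unpair.1 k) (le_max_left _ _)) h6)
        (he.mono _ _ _ _ (hseg _ _ (le_max_right _ _)) hk)
    rw [hv, h7]
    cases y n <;> simp

/-! ## The result -/

theorem exists_enum {R : (ℕ → Bool) → (ℕ → Bool) → Prop} (hR : ∀ a b, R a b → MEquiv a b) :
    ∃ ψ : ℕ → (ℕ → Bool) → (ℕ → Bool), (∀ k, Continuous (ψ k)) ∧
      ∀ a b, R a b → ∃ k, a = ψ k b := by
  classical
  let ρ : ℕ → ℕ → ℕ := fun k n => ((Denumerable.ofNat Nat.Partrec.Code k).eval n).toOption.getD 0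
  refine ⟨fun k b n => b (ρ k n), fun k => ?_, fun a b h => ?_⟩
  · exact continuous_pi fun n => continuous_apply _
  · obtain ⟨⟨r, hr, hr'⟩, -⟩ := hR a b h
    obtain ⟨c, hc⟩ := Nat.Partrec.Code.exists_code.1 (Partrec.nat_iff.1 hr.partrec)
    refine ⟨encode c, ?_⟩
    funext n
    rw [hr' n]
    congr 1
    simp only [ρ, Denumerable.ofNat_encode, hc]
    simp

theorem mVia_refl : ∃ k, ∀ v : ℕ → Bool, MVia k k v v := by
  obtain ⟨c, hc⟩ := Nat.Partrec.Code.exists_code.1 (Partrec.nat_iff.1 (Computable.id.partrec :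
    Partrec fun n : ℕ => Part.some (id n)))
  have h : ∀ n, n ∈ phi (encode c) n := by
    intro n
    simp only [phi, Denumerable.ofNat_encode, hc]
    simp
  exact ⟨encode c, fun v => ⟨⟨fun n => n, h, fun _ => rfl⟩, ⟨fun n => n, h, fun _ => rfl⟩⟩⟩

/-- Let `f` be `(≡_T, ≡_m)`-invariant on the Turing cone above `c`, and continuous on the part of a
pointed perfect set which lies in this cone. Then `f` is many-one equivalent on some Turing cone to
a constant function, which is uniformly `(≡_T, ≡_m)`-invariant. -/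
theorem result (f : (ℕ → Bool) → (ℕ → Bool)) (c : ℕ → Bool)
    (hf : ∀ x y, TLe c x → TLe c y → TLe x y → TLe y x → MEquiv (f x) (f y))
    (T : Set (List Bool)) (hT : PointedPerfect T)
    (hcont : ContinuousOn f {x ∈ branches T | TLe c x}) :
    ∃ v d : ℕ → Bool, UniformlyInvariant (fun _ => v) ∧ ∀ x, TLe d x → MEquiv (f x) v := by
  obtain ⟨d, v, hd, h⟩ := Pool.Agent.Lib.P704aa6.main (T := T) (R := MEquiv)
    (exists_enum fun _ _ h => h) (f := f) (c := c) (fun x y h1 h2 h3 => hf x y h1 h2 h3.1 h3.2)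
    ⟨⟨hT.1.nil, hT.1.closed, hT.1.split⟩, hT.2⟩ hcont
  refine ⟨v, d, ?_, fun x hx => ?_⟩
  · obtain ⟨k, hk⟩ := mVia_refl
    exact ⟨fun _ => (k, k), fun i j x y _ => hk v⟩
  · obtain ⟨y, hxy, rfl⟩ := h x hx
    have hcx : TLe c x := Pool.Agent.Lib.P704aa6.TRed.trans hd hx
    exact hf x y hcx (Pool.Agent.Lib.P704aa6.TRed.trans hcx hxy.1) hxy.1 hxy.2

end Pool.Agent.Results.MP_704aa6_lc.ContinuousCase
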